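import Pool.Agent.H44.GT.Targets
import Pool.Agent.H75.GT.Tri
import Pool.Agent.H40.G2.A0

/-!
# A_0: the energy estimate in almost every direction
-/

set_option autoImplicit false

namespace Pool.Agent.H40.GD

open MeasureTheory Pool.Agent.H44.DU Pool.Agent.H93.GTD

theorem facts {n : ℕ} (S : Surf n) (ζ : Side n → ℂ) (hζ : ∀ s, ‖ζ s‖ = 1) :
    Pool.Agent.H40.G2.Facts S ζ where
  zero := sec_zero
  add := fun _ _ h h' => sec_add h h'
  smul := fun c _ h => sec_mul h c
  mem := fun G h i e => by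
    obtain ⟨K, hK⟩ := h.lip
    exact memLp_fd (tri_convex S i) (tri_compact S i) (hK i) e 2
  fadd := fun G G' h h' i e => by
    obtain ⟨K, hK⟩ := h.lip
    obtain ⟨K', hK'⟩ := h'.lip
    filter_upwards [fd_add (tri_convex S i) (tri_compact S i) (hK i) (hK' i)] with z hz
    rw [hz]
    rfl
  fsmul := fun c G h i e => by
    obtain ⟨K, hK⟩ := h.lip
    exact fd_mul (tri_convex S i) (tri_compact S i) (hK i) c e
  green := fun G h => Pool.Agent.H75.GT.jac_zero' h hζ

theorem pf_A_0 : A_0 := by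
  intro n S ζ hζ _ b hb hM e
  obtain ⟨M, hM⟩ := hM
  filter_upwards [Pool.Agent.H40.G2.a0 S (facts S ζ hζ) b hb M hM e] with t ht
  obtain ⟨C, _, hC⟩ := ht
  refine ⟨C, fun N => ?_⟩
  obtain ⟨T, _, hTN, hT⟩ := hC N
  exact ⟨T, hTN, hT⟩

end Pool.Agent.H40.GD
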