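import Pool.Agent.H44.GT.Targets

/-!
# E_CYC: a character of the scales which is not trivial
-/

set_option autoImplicit false

namespace Pool.Agent.H40.GD

open Pool.Agent.H44.DU

theorem zt_mul {n : ℕ} (S : Surf n) (τ : ℝ) (s : Side n) (x : ℝ) :
    S.zt τ s * Complex.exp (Complex.I * (τ * x)) =
      Complex.exp (Complex.I * (τ * ((Real.log (S.a s) + x : ℝ) : ℂ))) := by
  unfold Surf.zt
  rw [← Complex.exp_add]
  congr 1
  push_cast
  ring

theorem pf_E_CYC : E_CYC := by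
  intro n S hc hT
  rcases Nat.eq_zero_or_pos n with hn | hn
  · subst hn
    exact absurd ⟨fun _ => 1, fun _ => one_pos, fun s => s.1.elim0⟩ hT
  let i0 : Fin n := ⟨0, hn⟩
  have hρ : ∀ i : Fin n, ∃ ρ : ℝ, ∀ (τ : ℝ) (k : Fin n → ℂ),
      (∀ s, k (S.gl s).1 = S.zt τ s * k s.1) →
      k i = Complex.exp (Complex.I * (τ * ρ)) * k i0 := by
    intro i
    have h := hc i0 i
    induction h with
    | refl =>
      refine ⟨0, fun τ k hk => ?_⟩
      simp
    | tail _ hstep ih =>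
      obtain ⟨ρ, hρ⟩ := ih
      obtain ⟨m, hm⟩ := hstep
      rename_i b c _
      refine ⟨Real.log (S.a (b, m)) + ρ, fun τ k hk => ?_⟩
      have h1 := hk (b, m)
      rw [hm] at h1
      rw [h1, hρ τ k hk, ← mul_assoc, zt_mul]
  choose ρ hρ using hρ
  have hex : ∃ s : Side n, Real.exp (ρ (S.gl s).1) ≠ S.a s * Real.exp (ρ s.1) := by
    by_contra hcon
    push Not at hcon
    exact hT ⟨fun i => Real.exp (ρ i), fun i => Real.exp_pos _, hcon⟩
  obtain ⟨s, hs⟩ := hex
  set δ : ℝ := ρ (S.gl s).1 - Real.log (S.a s) - ρ s.1 with hδ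
  have hδ0 : δ ≠ 0 := by
    intro h
    apply hs
    have h1 : ρ (S.gl s).1 = Real.log (S.a s) + ρ s.1 := by linarith
    rw [h1, Real.exp_add, Real.exp_log (S.a_pos s)]
  refine ⟨1 / δ, fun k hk0 hk => ?_⟩
  have h1 := hk s
  rw [hρ (S.gl s).1 _ k hk, hρ s.1 _ k hk, ← mul_assoc (S.zt (1 / δ) s), zt_mul] at h1
  have h2 := mul_right_cancel₀ (hk0 i0) h1
  have h3 : Complex.exp Complex.I = 1 := by
    have h4 : Complex.I = Complex.I * (((1 / δ : ℝ) : ℂ) * (ρ (S.gl s).1 : ℂ)) -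
        Complex.I * (((1 / δ : ℝ) : ℂ) * ((Real.log (S.a s) + ρ s.1 : ℝ) : ℂ)) := by
      have h5 : ((1 / δ : ℝ) : ℂ) * (ρ (S.gl s).1 : ℂ) -
          ((1 / δ : ℝ) : ℂ) * ((Real.log (S.a s) + ρ s.1 : ℝ) : ℂ) = 1 := by
        have h6 : (1 / δ) * ρ (S.gl s).1 - (1 / δ) * (Real.log (S.a s) + ρ s.1) = 1 := by
          field_simp
          rw [hδ]
          ring
        exact_mod_cast h6
      rw [← mul_sub, h5, mul_one]
    rw [h4, Complex.exp_sub, h2, div_self (Complex.exp_ne_zero _)]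
  rw [Complex.exp_eq_one_iff] at h3
  obtain ⟨m, hm⟩ := h3
  have h4 := congrArg Complex.im hm
  have h5 : (1 : ℝ) = m * (2 * Real.pi) := by
    have : ((m : ℂ) * (2 * (Real.pi : ℂ) * Complex.I)).im = m * (2 * Real.pi) := by
      have h6 : (m : ℂ) * (2 * (Real.pi : ℂ) * Complex.I) =
          ((m * (2 * Real.pi) : ℝ) : ℂ) * Complex.I := by
        push_cast
        ring
      rw [h6, Complex.im_ofReal_mul, Complex.I_im, mul_one]
    rw [this, Complex.I_im] at h4
    exact h4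
  have hpi := Real.pi_gt_three
  have hm0 : (0 : ℝ) < m := by
    by_contra h
    push Not at h
    nlinarith
  have hm1 : (1 : ℝ) ≤ m := by
    have : (0 : ℤ) < m := by exact_mod_cast hm0
    exact_mod_cast this
  nlinarith

end Pool.Agent.H40.GD
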