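import Pool.Agent.H25.GD.Targets

/-!
# V_FAN: square integrability near the extreme vertices
-/

set_option autoImplicit false

namespace Pool.Agent.H40.GD

open MeasureTheory Pool.Agent.H44.DU

/-- A one-sided neighbourhood of `p`. -/
def Is (e p δ : ℝ) : Set ℝ := {x | 0 < e * (x - p) ∧ e * (x - p) < δ}

theorem Is_meas (e p δ : ℝ) : MeasurableSet (Is e p δ) := by
  have h : Measurable fun x : ℝ => e * (x - p) := by fun_prop
  exact (measurableSet_lt measurable_const h).inter (measurableSet_lt h measurable_const)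

theorem Is_mono (e p : ℝ) {δ δ' : ℝ} (h : δ ≤ δ') : Is e p δ ⊆ Is e p δ' :=
  fun _ hx => ⟨hx.1, hx.2.trans_le h⟩

section

variable {n : ℕ} (S : Surf n)

theorem xi_ne {t : ℝ} (hG : S.Gd t) (s : Side n) : xi t (S.P s) ≠ xi t (S.Q s) := by
  intro h
  have h0 : ∀ c, S.dev [] c = S.P c := fun c => by simp [Surf.dev, Surf.A, Surf.B]
  have h1 := hG [] [] s (nx s) (by rw [h0, h0, S.P_nx]; exact h)
  rw [h0, h0, S.P_nx] at h1
  apply S.P_ne_Q s
  apply Complex.ext
  · unfold xi at h
    rw [h1] at h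
    linarith
  · exact h1

theorem xl_le (t : ℝ) (c : Side n) : S.xl t c.1 ≤ xi t (S.P c) := by
  obtain ⟨i, k⟩ := c
  unfold Surf.xl Surf.P
  fin_cases k
  · exact min_le_left _ _
  · exact (min_le_right _ _).trans (min_le_left _ _)
  · exact (min_le_right _ _).trans (min_le_right _ _)

theorem le_xr (t : ℝ) (c : Side n) : xi t (S.P c) ≤ S.xr t c.1 := by
  obtain ⟨i, k⟩ := c
  unfold Surf.xr Surf.P
  fin_cases k
  · exact le_max_left _ _
  · exact (le_max_left _ _).trans (le_max_right _ _)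
  · exact (le_max_right _ _).trans (le_max_right _ _)

theorem xl_le_Q (t : ℝ) (c : Side n) : S.xl t c.1 ≤ xi t (S.Q c) := by
  have := xl_le S t (nx c)
  rwa [S.P_nx, nx_fst] at this

theorem le_xr_Q (t : ℝ) (c : Side n) : xi t (S.Q c) ≤ S.xr t c.1 := by
  have := le_xr S t (nx c)
  rwa [S.P_nx, nx_fst] at this

theorem xl_le_O (t : ℝ) (c : Side n) : S.xl t c.1 ≤ xi t (S.O c) := by
  have := xl_le S t (nx (nx c))
  rwa [S.P_nx_nx, nx_fst, nx_fst] at this

theorem le_xr_O (t : ℝ) (c : Side n) : xi t (S.O c) ≤ S.xr t c.1 := by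
  have := le_xr S t (nx (nx c))
  rwa [S.P_nx_nx, nx_fst, nx_fst] at this

/-- The leftmost vertex. -/
theorem ex_left (t : ℝ) (i : Fin n) : ∃ c : Side n, c.1 = i ∧ S.xl t i = xi t (S.P c) := by
  unfold Surf.xl
  rcases min_choice (xi t (S.v i 0)) (min (xi t (S.v i 1)) (xi t (S.v i 2))) with h | h
  · exact ⟨(i, 0), rfl, h⟩
  · rcases min_choice (xi t (S.v i 1)) (xi t (S.v i 2)) with h' | h'
    · exact ⟨(i, 1), rfl, h.trans h'⟩
    · exact ⟨(i, 2), rfl, h.trans h'⟩

/-- The rightmost vertex. -/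
theorem ex_right (t : ℝ) (i : Fin n) : ∃ c : Side n, c.1 = i ∧ S.xr t i = xi t (S.P c) := by
  unfold Surf.xr
  rcases max_choice (xi t (S.v i 0)) (max (xi t (S.v i 1)) (xi t (S.v i 2))) with h | h
  · exact ⟨(i, 0), rfl, h⟩
  · rcases max_choice (xi t (S.v i 1)) (xi t (S.v i 2)) with h' | h'
    · exact ⟨(i, 1), rfl, h.trans h'⟩
    · exact ⟨(i, 2), rfl, h.trans h'⟩

/-- Square integrability on one side of a corner. -/
def Loc (t : ℝ) (f : Fin n → ℝ → ℝ) (e : ℝ) (c : Side n) : Prop :=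
  ∃ δ > (0 : ℝ), IntegrableOn (fun x => f c.1 x ^ 2) (Is e (xi t (S.P c)) δ)

/-- The middle vertex. -/
theorem loc_mid (t : ℝ) (f : Fin n → ℝ → ℝ)
    (hloc : ∀ (i : Fin n) (a b : ℝ), S.xl t i < a → a < b → b < S.xr t i →
      IntegrableOn (fun x => f i x ^ 2) (Set.Icc a b)) (e : ℝ) (he : e = 1 ∨ e = -1)
    (c : Side n) (h1 : 0 < e * (xi t (S.Q c) - xi t (S.P c)))
    (h2 : e * (xi t (S.O c) - xi t (S.P c)) < 0) : Loc S t f e c := by
  have a1 := xl_le_Q S t c
  have a2 := xl_le_O S t c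
  have a3 := le_xr_Q S t c
  have a4 := le_xr_O S t c
  set p := xi t (S.P c)
  set q := xi t (S.Q c)
  set o := xi t (S.O c)
  rcases he with rfl | rfl
  · refine ⟨(q - p) / 2, by linarith, ?_⟩
    refine (hloc c.1 p ((p + q) / 2) (by linarith) (by linarith) (by linarith)).mono_set ?_
    rintro x ⟨hx1, hx2⟩
    constructor <;> linarith
  · refine ⟨(p - q) / 2, by linarith, ?_⟩
    refine (hloc c.1 ((p + q) / 2) p (by linarith) (by linarith) (by linarith)).mono_set ?_
    rintro x ⟨hx1, hx2⟩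
    constructor <;> linarith

/-- The invariance of the density in both directions. -/
theorem inv_both (t : ℝ) (f : Fin n → ℝ → ℝ)
    (hinv : ∀ (r : Side n) (x : ℝ), S.InJ t r x → f (S.gl r).1 (S.mv t r x) = f r.1 x / S.a r)
    (r : Side n) (x : ℝ) (h : S.InJ t r x ∨ S.InI t r x) :
    f r.1 x = S.a r * f (S.gl r).1 (S.mv t r x) := by
  have ha := (S.a_pos r).ne'
  rcases h with h | h
  · rw [hinv r x h]
    field_simp
  · have h1 := hinv (S.gl r) (S.mv t r x) ((S.inJ_gl_iff t r x).2 h)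
    rw [S.gl_gl, S.mv_gl, S.a_gl] at h1
    rw [h1]
    field_simp

/-- One turn around the vertex. -/
theorem loc_step (t : ℝ) (f : Fin n → ℝ → ℝ)
    (hinv : ∀ (r : Side n) (x : ℝ), S.InJ t r x → f (S.gl r).1 (S.mv t r x) = f r.1 x / S.a r)
    (e : ℝ) (he : e = 1 ∨ e = -1) (c : Side n)
    (h2 : 0 < e * (xi t (S.O c) - xi t (S.P c)))
    (h : Loc S t f e (S.gl (nx (nx c)))) : Loc S t f e c := by
  obtain ⟨δ, hδ, hI⟩ := h
  set r : Side n := nx (nx c) with hr
  have hrc : r.1 = c.1 := rfl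
  have hPr : S.P r = S.O c := S.P_nx_nx c
  have hQr : S.Q r = S.P c := S.Q_nx_nx c
  have hP' : xi t (S.P (S.gl r)) = S.mv t r (xi t (S.P c)) := by
    rw [S.xi_P_gl, hQr]
  rw [hP'] at hI
  set p := xi t (S.P c) with hp
  set o := xi t (S.O c) with ho
  have ha := S.a_pos r
  refine ⟨min (δ / S.a r) (e * (o - p)), lt_min (div_pos hδ ha) h2, ?_⟩
  -- integrability after the change of variables
  have hI2 : IntegrableOn (fun x => f (S.gl r).1 (S.mv t r x) ^ 2)
      {x | S.mv t r x ∈ Is e (S.mv t r p) δ} := by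
    have h3 : Integrable (Set.indicator (Is e (S.mv t r p) δ)
        (fun y => f (S.gl r).1 y ^ 2)) := (integrable_indicator_iff (Is_meas _ _ _)).2 hI
    have h4 := (h3.comp_add_right (xi t (S.b r))).comp_mul_left' ha.ne'
    have hm : MeasurableSet {x | S.mv t r x ∈ Is e (S.mv t r p) δ} := by
      have : Measurable (fun x => S.mv t r x) := by
        unfold Surf.mv
        fun_prop
      exact this (Is_meas _ _ _)
    rw [← integrable_indicator_iff hm]
    refine h4.congr (Filter.Eventually.of_forall fun x => ?_)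
    simp only [Set.indicator]
    rfl
  have hI3 : IntegrableOn (fun x => S.a r ^ 2 * f (S.gl r).1 (S.mv t r x) ^ 2)
      (Is e p (min (δ / S.a r) (e * (o - p)))) := by
    refine (hI2.mono_set ?_).const_mul _
    rintro x ⟨hx1, hx2⟩
    have hx3 := hx2.trans_le (min_le_left _ _)
    have e1 : S.mv t r x - S.mv t r p = S.a r * (x - p) := by
      unfold Surf.mv
      ring
    refine ⟨?_, ?_⟩
    · show 0 < e * (S.mv t r x - S.mv t r p)
      rw [e1]
      have := mul_pos ha hx1
      nlinarith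
    · show e * (S.mv t r x - S.mv t r p) < δ
      rw [e1]
      rw [lt_div_iff₀ ha] at hx3
      nlinarith
  refine hI3.congr_fun ?_ (Is_meas _ _ _)
  rintro x ⟨hx1, hx2⟩
  have hx3 := hx2.trans_le (min_le_right _ _)
  have hIJ : S.InJ t r x ∨ S.InI t r x := by
    rcases he with rfl | rfl
    · left
      refine ⟨?_, ?_⟩
      · rw [hQr]
        linarith
      · rw [hPr]
        linarith
    · right
      refine ⟨?_, ?_⟩
      · rw [hPr]
        linarith
      · rw [hQr]
        linarith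
  have := inv_both S t f hinv r x hIJ
  simp only
  rw [← hrc, this]
  ring

/-- The slope of the side of a corner. -/
noncomputable def sr (t : ℝ) (c : Side n) : ℝ :=
  (S.Q c - S.P c).im / (xi t (S.Q c) - xi t (S.P c))

theorem sr_lt (t e : ℝ) (c : Side n) (h1 : 0 < e * (xi t (S.Q c) - xi t (S.P c)))
    (h2 : 0 < e * (xi t (S.O c) - xi t (S.P c))) :
    sr S t c < sr S t (S.gl (nx (nx c))) := by
  set r : Side n := nx (nx c) with hr
  have hPr : S.P r = S.O c := S.P_nx_nx c
  have hQr : S.Q r = S.P c := S.Q_nx_nx c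
  have ha := S.a_pos r
  have hd : S.Q (S.gl r) - S.P (S.gl r) = S.a r * (S.O c - S.P c) := by
    rw [S.Q_gl, S.P_gl, hPr, hQr]
    ring
  have hx : xi t (S.Q (S.gl r)) - xi t (S.P (S.gl r)) =
      S.a r * (xi t (S.O c) - xi t (S.P c)) := by
    rw [← xi_sub, hd, xi_mul, xi_sub]
  have hq : sr S t (S.gl r) = (S.O c - S.P c).im / (xi t (S.O c) - xi t (S.P c)) := by
    unfold sr
    rw [hd, hx, Complex.im_ofReal_mul, mul_div_mul_left _ _ ha.ne']
  rw [hq]
  unfold sr
  have har := S.ar_pos c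
  unfold Surf.ar at har
  rw [← xi_sub] at h1 h2 ⊢
  rw [← xi_sub]
  set u := S.Q c - S.P c
  set w := S.O c - S.P c
  have hc : 0 < xi t u * w.im - u.im * xi t w := by
    unfold xi
    nlinarith
  have hs : 0 < xi t u * xi t w := by
    have h3 : 0 < e ^ 2 * (xi t u * xi t w) := by nlinarith
    have h4 : 0 ≤ e ^ 2 := sq_nonneg e
    by_contra h5
    push Not at h5
    nlinarith
  have hu0 : xi t u ≠ 0 := by
    intro h
    rw [h] at hs
    linarith
  have hw0 : xi t w ≠ 0 := by
    intro h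
    rw [h] at hs
    linarith
  have h6 : w.im / xi t w - u.im / xi t u = (xi t u * w.im - u.im * xi t w) / (xi t u * xi t w) := by
    field_simp
  have h7 := div_pos hc hs
  linarith

/-- Square integrability on one side of every corner. -/
theorem loc_all (t : ℝ) (f : Fin n → ℝ → ℝ) (hG : S.Gd t)
    (hinv : ∀ (r : Side n) (x : ℝ), S.InJ t r x → f (S.gl r).1 (S.mv t r x) = f r.1 x / S.a r)
    (hloc : ∀ (i : Fin n) (a b : ℝ), S.xl t i < a → a < b → b < S.xr t i →
      IntegrableOn (fun x => f i x ^ 2) (Set.Icc a b)) (e : ℝ) (he : e = 1 ∨ e = -1) :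
    ∀ c : Side n, 0 < e * (xi t (S.Q c) - xi t (S.P c)) → Loc S t f e c := by
  have hwf : WellFounded (fun c c' : Side n => sr S t c' < sr S t c) := by
    have : Std.Irrefl (fun c c' : Side n => sr S t c' < sr S t c) := ⟨fun c => lt_irrefl _⟩
    have : IsTrans (Side n) (fun c c' : Side n => sr S t c' < sr S t c) :=
      ⟨fun _ _ _ h1 h2 => h2.trans h1⟩
    exact Finite.wellFounded_of_trans_of_irrefl _
  intro c
  induction c using hwf.induction with
  | h c ih =>
    intro h1
    rcases lt_trichotomy (e * (xi t (S.O c) - xi t (S.P c))) 0 with h2 | h2 | h2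
    · exact loc_mid S t f hloc e he c h1 h2
    · exfalso
      have h3 := xi_ne S hG (nx (nx c))
      rw [S.P_nx_nx, S.Q_nx_nx] at h3
      have he0 : e ≠ 0 := by
        rcases he with rfl | rfl <;> norm_num
      rcases mul_eq_zero.1 h2 with h4 | h4
      · exact he0 h4
      · exact h3 (sub_eq_zero.1 h4)
    · refine loc_step S t f hinv e he c h2 (ih _ (sr_lt S t e c h1 h2) ?_)
      have hPr : S.P (nx (nx c)) = S.O c := S.P_nx_nx c
      have hQr : S.Q (nx (nx c)) = S.P c := S.Q_nx_nx c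
      have hd : S.Q (S.gl (nx (nx c))) - S.P (S.gl (nx (nx c))) =
          S.a (nx (nx c)) * (S.O c - S.P c) := by
        rw [S.Q_gl, S.P_gl, hPr, hQr]
        ring
      rw [← xi_sub, hd, xi_mul, xi_sub]
      have ha := S.a_pos (nx (nx c))
      have := mul_pos ha h2
      nlinarith

end

theorem pf_V_FAN : V_FAN := by
  intro n S t f hG _ hinv hloc i
  obtain ⟨c, hci, hc⟩ := ex_left S t i
  obtain ⟨d, hdi, hd⟩ := ex_right S t i
  have hc1 : 0 < (1 : ℝ) * (xi t (S.Q c) - xi t (S.P c)) := by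
    have h1 := xl_le_Q S t c
    rw [hci, hc] at h1
    have h2 := xi_ne S hG c
    have h3 : xi t (S.P c) < xi t (S.Q c) := lt_of_le_of_ne h1 h2
    linarith
  have hd1 : 0 < (-1 : ℝ) * (xi t (S.Q d) - xi t (S.P d)) := by
    have h1 := le_xr_Q S t d
    rw [hdi, hd] at h1
    have h2 := xi_ne S hG d
    have h3 : xi t (S.Q d) < xi t (S.P d) := lt_of_le_of_ne h1 (Ne.symm h2)
    linarith
  obtain ⟨δ, hδ, hI⟩ := loc_all S t f hG hinv hloc 1 (Or.inl rfl) c hc1
  obtain ⟨δ', hδ', hI'⟩ := loc_all S t f hG hinv hloc (-1) (Or.inr rfl) d hd1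
  rw [hci] at hI
  rw [hdi] at hI'
  rw [← hc] at hI
  rw [← hd] at hI'
  have hlr : S.xl t i < S.xr t i := by
    have h1 := xl_le_Q S t c
    have h3 := le_xr_Q S t c
    rw [hci] at h1 h3
    linarith
  set l := S.xl t i
  set r := S.xr t i
  set η := min (min δ δ') ((r - l)) / 3 with hη
  have hη0 : 0 < η := by
    have : 0 < min (min δ δ') (r - l) := lt_min (lt_min hδ hδ') (by linarith)
    positivity
  have hη1 : 3 * η ≤ δ := by
    have : min (min δ δ') (r - l) ≤ δ := (min_le_left _ _).trans (min_le_left _ _)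
    linarith
  have hη2 : 3 * η ≤ δ' := by
    have : min (min δ δ') (r - l) ≤ δ' := (min_le_left _ _).trans (min_le_right _ _)
    linarith
  have hη3 : 3 * η ≤ r - l := by
    have : min (min δ δ') (r - l) ≤ r - l := min_le_right _ _
    linarith
  have hmid := hloc i (l + η) (r - η) (by linarith) (by linarith) (by linarith)
  refine ((hI.union hmid).union hI').mono_set ?_
  rintro x ⟨hx1, hx2⟩
  rcases lt_or_ge x (l + η) with h | h
  · left
    left
    exact ⟨by linarith, by linarith⟩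
  · rcases le_or_gt x (r - η) with h' | h'
    · left
      right
      exact ⟨h, h'⟩
    · right
      exact ⟨by linarith, by linarith⟩

end Pool.Agent.H40.GD
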